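import Pool.Agent.V11252.NP.Dep

set_option autoImplicit false

/-!
# MP_58e087_nt: what a linear relation between `1`, `e`, `π` would imply

`LogForms` is the space of all linear combinations, with algebraic coefficients, of `1` and of
logarithms of algebraic numbers; `InP t` says that `t > 0` and `log t ∈ LogForms`, i.e.
`t = e ^ γ α₁ ^ β₁ ⋯ αₖ ^ βₖ` with algebraic `γ`, `αᵢ`, `βᵢ`.  A positive number without this
property is transcendental.

The proofs use the theorem of Brownawell and Waldschmidt (library: W252), the strong six exponentials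
theorem of Roy (library: helper301, helper335), Baker's theorem and the linear independence measure
of `1, e` (library: W472).
-/

namespace Pool.Agent.Results.MP_58e087_nt.DependenceConsequences

open Real

/-- The linear combinations, with algebraic coefficients, of `1` and of logarithms of algebraic
numbers. -/
noncomputable def LogForms : Submodule (algebraicClosure ℚ ℂ) ℂ :=
  Submodule.span (algebraicClosure ℚ ℂ) ({1} ∪ {z : ℂ | IsAlgebraic ℚ (Complex.exp z)})

/-- `t > 0` and `log t` is in `LogForms`. -/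
def InP (t : ℝ) : Prop := 0 < t ∧ ((Real.log t : ℝ) : ℂ) ∈ LogForms

/-- Multiplicative independence. -/
def MInd {r : ℕ} (α : Fin r → ℝ) : Prop := ∀ k : Fin r → ℤ, ∏ i, α i ^ k i = 1 → k = 0

/-- the number `τ (s + t τ) / (1 + v τ)`, `τ = π i` -/
noncomputable def moebius (s t v : ℚ) : ℂ :=
  (π * Complex.I) * ((s + t * (π * Complex.I)) / (1 + v * (π * Complex.I)))

/-- The consequences of a linear relation between `1`, `e`, `π` with real algebraic coefficients. -/
structure AlgebraicConsequences : Prop where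
  /-- `e ^ (u e + v)` is transcendental -/
  exp_linear : ∀ u v : ℝ, IsAlgebraic ℚ u → IsAlgebraic ℚ v → (u ≠ 0 ∨ v ≠ 0) →
    Transcendental ℚ (exp (u * exp 1 + v))
  /-- for `t` with the property, `t ^ e` and `t ^ π` have it together or not at all -/
  same : ∀ t : ℝ, InP t → (InP (t ^ exp 1) ↔ InP (t ^ π))
  /-- one of two independent algebraic numbers has an `e`-th power without the property -/
  two : ∀ α : Fin 2 → ℝ, (∀ i, 0 < α i) → (∀ i, IsAlgebraic ℚ (α i)) → MInd α →
    ∃ i, ¬ InP (α i ^ exp 1)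
  /-- one of `α ^ e`, `e ^ (e²)` does not have the property -/
  one_square : ∀ α : ℝ, 0 < α → IsAlgebraic ℚ α → α ≠ 1 →
    ¬ InP (α ^ exp 1) ∨ ¬ InP (exp (exp 1 ^ 2))
  /-- `e ^ (e²)`, `e ^ (π²)`, `e ^ (π e)` have the property together or not at all -/
  squares : (InP (exp (exp 1 ^ 2)) ↔ InP (exp (π ^ 2))) ∧
    (InP (exp (exp 1 ^ 2)) ↔ InP (exp (π * exp 1)))
  /-- one of `e ^ (e²)`, `e ^ (e³)` does not have the property -/
  cube : ¬ InP (exp (exp 1 ^ 2)) ∨ ¬ InP (exp (exp 1 ^ 3))
  /-- if `e ^ x`, `e ^ (e x)` are algebraic, `e ^ (e² x)` does not have the property -/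
  five : ∀ x : ℝ, x ≠ 0 → IsAlgebraic ℚ (exp x) → IsAlgebraic ℚ (exp (exp 1 * x)) →
    ¬ InP (exp (exp 1 ^ 2 * x))

/-- Further consequences of a linear relation with rational coefficients. -/
structure RationalConsequences : Prop where
  /-- `α ^ e` and `α ^ π` are both algebraic or both transcendental -/
  powers : ∀ α : ℝ, 0 < α → IsAlgebraic ℚ α →
    (IsAlgebraic ℚ (α ^ exp 1) ↔ IsAlgebraic ℚ (α ^ π))
  /-- the irrationality exponent of `π` is two -/
  measure : ∀ η : ℝ, 0 < η → ∃ c : ℝ, 0 < c ∧ ∀ (p : ℤ) (q : ℕ), 1 ≤ q →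
    c * (q : ℝ) ^ (-(2 + η)) ≤ |π - (p : ℝ) / q|

open Pool.Agent.V11252.NP in
theorem rel_of {K : IntermediateField ℚ ℝ} (hK : ∀ x ∈ K, IsAlgebraic ℚ x)
    (h : ¬ LinearIndependent K ![(1 : ℝ), exp 1, π]) :
    ∃ a ∈ K, ∃ b ∈ K, Rel a b := by
  rw [Fintype.not_linearIndependent_iff] at h
  obtain ⟨g, hg, i, hi⟩ := h
  rw [Fin.sum_univ_three] at hg
  simp only [Matrix.cons_val_zero, Matrix.cons_val_one, Matrix.cons_val] at hg
  have e0 : g 0 • (1 : ℝ) = (g 0 : ℝ) := by
    change (g 0 : ℝ) * 1 = _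
    ring
  have e1 : g 1 • (exp 1 : ℝ) = (g 1 : ℝ) * exp 1 := rfl
  have e2 : g 2 • (π : ℝ) = (g 2 : ℝ) * π := rfl
  rw [e0, e1, e2] at hg
  have h1 : (g 1 : ℝ) ≠ 0 := by
    intro h1
    rw [h1, zero_mul, add_zero] at hg
    have h2 : (g 2 : ℝ) = 0 := by
      by_contra h2
      apply Pool.Agent.H340R2.LW.transcendental_pi
      have : π = -(g 0 : ℝ) / (g 2 : ℝ) := by
        field_simp
        linear_combination hg
      rw [this]
      exact (hK _ (g 0).2).neg.mul (hK _ (g 2).2).inv
    rw [h2, zero_mul, add_zero] at hg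
    apply hi
    fin_cases i
    · exact Subtype.ext hg
    · exact Subtype.ext h1
    · exact Subtype.ext h2
  have ha : -(g 0 : ℝ) / (g 1 : ℝ) ∈ K := K.div_mem (K.neg_mem (g 0).2) (g 1).2
  have hb : -(g 2 : ℝ) / (g 1 : ℝ) ∈ K := K.div_mem (K.neg_mem (g 2).2) (g 1).2
  refine ⟨_, ha, _, hb, ⟨hK _ ha, hK _ hb, ?_⟩⟩
  field_simp
  linear_combination hg

/-- **Main result.**
(1) If `exp (τ (s + t τ) / (1 + v τ))` is algebraic, `τ = π i`, for some rational `s`, `t`, `v` with
`t ≠ s v`, then `π` and `e` are algebraically independent; in particular `1`, `e`, `π` are then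
linearly independent over `ℚ`.  (The case `s = v = 0`, `t = -1` is `exp (π²)`.)
(2) Either `1`, `e`, `π` are linearly independent over the field of real algebraic numbers, or all
the statements `AlgebraicConsequences` hold.
(3) Either `1`, `e`, `π` are linearly independent over `ℚ`, or all the statements
`AlgebraicConsequences` and `RationalConsequences` hold. -/
theorem result :
    (∀ s t v : ℚ, t ≠ s * v → IsAlgebraic ℚ (Complex.exp (moebius s t v)) →
      AlgebraicIndependent ℚ ![π, exp 1] ∧ LinearIndependent ℚ ![(1 : ℝ), exp 1, π]) ∧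
    (LinearIndependent (algebraicClosure ℚ ℝ) ![(1 : ℝ), exp 1, π] ∨ AlgebraicConsequences) ∧
    (LinearIndependent ℚ ![(1 : ℝ), exp 1, π] ∨
      (AlgebraicConsequences ∧ RationalConsequences)) := by
  have hcons : ∀ a b : ℝ, Pool.Agent.V11252.NP.Rel a b → AlgebraicConsequences := by
    intro a b R
    exact ⟨R.exp_tr, fun t ht => R.pow_iff ht, fun α hα ha hi => R.two α hα ha hi,
      fun α hα ha h1 => R.sq_excl hα ha h1, R.sq_iff, R.cube_excl,
      fun x hx h1 h2 => R.five' x hx h1 h2⟩
  have hQ : ¬ LinearIndependent ℚ ![(1 : ℝ), exp 1, π] →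
      ∃ r s : ℚ, exp 1 = r + s * π := by
    intro h
    rw [Fintype.not_linearIndependent_iff] at h
    obtain ⟨g, hg, i, hi⟩ := h
    rw [Fin.sum_univ_three] at hg
    simp only [Matrix.cons_val_zero, Matrix.cons_val_one, Matrix.cons_val, Rat.smul_def] at hg
    have h1 : g 1 ≠ 0 := by
      intro h1
      rw [h1, Rat.cast_zero, zero_mul, add_zero] at hg
      have h2 : g 2 = 0 := by
        by_contra h2
        apply Pool.Agent.H340R2.LW.transcendental_pi
        have : π = ((-g 0 / g 2 : ℚ) : ℝ) := by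
          have : (g 2 : ℝ) ≠ 0 := by exact_mod_cast h2
          push_cast
          field_simp
          linear_combination hg
        rw [this]
        have := isAlgebraic_algebraMap (R := ℚ) (A := ℝ) (-g 0 / g 2)
        exact this
      rw [h2, Rat.cast_zero, zero_mul, add_zero, mul_one] at hg
      apply hi
      fin_cases i
      · exact_mod_cast hg
      · exact h1
      · exact h2
    refine ⟨-g 0 / g 1, -g 2 / g 1, ?_⟩
    have : (g 1 : ℝ) ≠ 0 := by exact_mod_cast h1
    push_cast
    field_simp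
    linear_combination hg
  have hratalg : ∀ r : ℚ, IsAlgebraic ℚ (r : ℝ) := fun r => by
    have := isAlgebraic_algebraMap (R := ℚ) (A := ℝ) r
    exact this
  refine ⟨?_, ?_, ?_⟩
  · intro s t v hM h
    have h1 := Pool.Agent.V11252.NP.moebius_indep s t v hM h
    refine ⟨h1, ?_⟩
    by_contra hcon
    obtain ⟨r, s', hrs⟩ := hQ hcon
    have h2 : Pool.Agent.W243.TD.Al ((π : ℝ) : ℂ) ((exp 1 : ℝ) : ℂ) := by
      have hpi : Pool.Agent.W243.TD.Al ((π : ℝ) : ℂ) ((π : ℝ) : ℂ) :=
        Pool.Agent.TH577.RF.al_self _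
      have hq : ∀ q : ℚ, Pool.Agent.W243.TD.Al ((π : ℝ) : ℂ) (q : ℂ) := fun q =>
        Pool.Agent.TH577.RF.al_of_alg (by
          have := isAlgebraic_algebraMap (R := ℚ) (A := ℂ) q
          exact this)
      have : ((exp 1 : ℝ) : ℂ) = (r : ℂ) + (s' : ℂ) * ((π : ℝ) : ℂ) := by
        rw [hrs]
        push_cast
        ring
      rw [this]
      exact (hq r).add ((hq s').mul hpi)
    exact Pool.Agent.V11252.NP.moebius s t v hM h h2
  · by_cases h : LinearIndependent (algebraicClosure ℚ ℝ) ![(1 : ℝ), exp 1, π]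
    · exact Or.inl h
    · obtain ⟨a, _, b, _, R⟩ := rel_of (fun x hx => mem_algebraicClosure_iff.1 hx) h
      exact Or.inr (hcons a b R)
  · by_cases h : LinearIndependent ℚ ![(1 : ℝ), exp 1, π]
    · exact Or.inl h
    · obtain ⟨r, s, hrs⟩ := hQ h
      have R : Pool.Agent.V11252.NP.Rel (r : ℝ) (s : ℝ) := ⟨hratalg r, hratalg s, hrs⟩
      have hs : s ≠ 0 := by
        intro h0
        apply R.b_ne
        rw [h0, Rat.cast_zero]
      exact Or.inr ⟨hcons _ _ R, ⟨fun α hα ha =>
        Pool.Agent.V11252.NP.alg_pow_iff hrs hs hα ha, fun η hη =>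
        Pool.Agent.V11252.NP.pi_measure hrs hs η hη⟩⟩

end Pool.Agent.Results.MP_58e087_nt.DependenceConsequences
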