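import Mathlib
import Pool.Agent.V1139.LP.Dicho

/-!
# Linear relations between `1, e, π` against algebraic relations between `e` and `π`

`t` is an arbitrary real number (for instance `π`), `|t| ≤ T`; `P ∈ ℤ[X, Y]` is any polynomial of total
degree at most `d` and height at most `h₂` which does not vanish on the line `a + b X + c Y = 0`, where
`a, b, c` are integers of absolute value at most `h₁` and `c ≠ 0`.

(1) `|P(e, t)| + (h₂ / h₁) |a + b e + c t| ≥ κ h₁ ^ (-d (d + 1) - η) h₂ ^ (-d - η)`.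
(2) If `|a + b e + c t| ≤ h₁ ^ (-w)`, then `|P(e, t)| ≥ κ h₁ ^ (-d (d + 1) - η) h₂ ^ (-d - η)` for ALL
    these `P` with `h₂ ≤ h₁ ^ θ`, if `θ (d + 1 + η) + d (d + 1) + η < w + 1` and `h₁` is large.
(3) If `1, e, t` are linearly independent over `ℚ` and `P(e, t) = 0` for some `P ≠ 0` of total degree
    at most `d`, then `|a + b e + c t| ≥ κ H ^ (-d² - d + 1 - η)` for all nonzero integer vectors
    `(a, b, c)` of height at most `H`.
(4) If `1, e, π` are linearly independent over `ℚ`, then `e` and `π` are algebraically independent or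
    `1, e, π` have a measure of linear independence `κ H ^ (-w)`.
-/

set_option autoImplicit false

namespace Pool.Agent.Results.MP_58e087_nt.LinearAgainstPolynomial

open Polynomial

/-- the value `P(u, v)` of a polynomial in `Y` with coefficients in `ℤ[X]` at `X = u`, `Y = v` -/
noncomputable def value {S : Type} [CommRing S] (u v : S) (P : ℤ[X][X]) : S :=
  P.eval₂ (aeval u : ℤ[X] →ₐ[ℤ] S).toRingHom v

/-- total degree at most `d` -/
def TotalDegree (d : ℕ) (P : ℤ[X][X]) : Prop :=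
  P.natDegree ≤ d ∧ ∀ j ≤ d, (P.coeff j).natDegree ≤ d - j

/-- all coefficients are at most `h` in absolute value -/
def Height (h : ℝ) (P : ℤ[X][X]) : Prop := ∀ j i, |((P.coeff j).coeff i : ℝ)| ≤ h

/-- `|a|, |b|, |c| ≤ h` -/
def Entries (h : ℝ) (a b c : ℤ) : Prop := |(a : ℝ)| ≤ h ∧ |(b : ℝ)| ≤ h ∧ |(c : ℝ)| ≤ h

/-- `P` does not vanish on the line `a + b X + c Y = 0` -/
def NotOnLine (a b c : ℤ) (P : ℤ[X][X]) : Prop :=
  ∃ u v : ℂ, (a : ℂ) + b * u + c * v = 0 ∧ value u v P ≠ 0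

/-- `1, x, t` are linearly independent over the rational numbers -/
def Independent (x t : ℝ) : Prop :=
  ∀ a b c : ℤ, (a : ℝ) + b * x + c * t = 0 → a = 0 ∧ b = 0 ∧ c = 0

/-- `|a + b e + c t| ≥ κ H ^ (-w)` for all nonzero integer vectors of height at most `H` -/
def Measure (t w κ : ℝ) : Prop :=
  ∀ (a b c : ℤ) (H : ℝ), 1 ≤ H → |(a : ℝ)| ≤ H → |(b : ℝ)| ≤ H → |(c : ℝ)| ≤ H →
    (a ≠ 0 ∨ b ≠ 0 ∨ c ≠ 0) → κ * H ^ (-w) ≤ |(a : ℝ) + b * Real.exp 1 + c * t|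

lemma exists_td (P : ℤ[X][X]) : ∃ d : ℕ, TotalDegree d P := by
  classical
  refine ⟨P.natDegree + P.support.sup fun j => (P.coeff j).natDegree, by omega, fun j hj => ?_⟩
  by_cases h : P.coeff j = 0
  · rw [h]; simp
  · have h1 := Finset.le_sup (f := fun j => (P.coeff j).natDegree) (mem_support_iff.2 h)
    have h2 := le_natDegree_of_ne_zero h
    omega

/-- **A linear form against all polynomials of bounded degree.** -/
theorem result :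
    -- (1)
    (∀ (d : ℕ) (T η : ℝ), 1 ≤ d → 0 ≤ T → 0 < η → ∃ κ : ℝ, 0 < κ ∧ ∀ t : ℝ, |t| ≤ T →
      ∀ (a b c : ℤ) (P : ℤ[X][X]) (h₁ h₂ : ℝ), c ≠ 0 → 1 ≤ h₁ → 1 ≤ h₂ → Entries h₁ a b c →
        TotalDegree d P → Height h₂ P → NotOnLine a b c P →
        κ ≤ h₁ ^ ((d : ℝ) * (d + 1) + η) * h₂ ^ ((d : ℝ) + η) *
          (|value (Real.exp 1) t P| + h₂ / h₁ * |a + b * Real.exp 1 + c * t|)) ∧
    -- (2)
    (∀ (d : ℕ) (T w θ η : ℝ), 1 ≤ d → 0 ≤ T → 0 < η →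
      θ * (d + 1 + η) + d * (d + 1) + η < w + 1 → ∃ κ h₀ : ℝ, 0 < κ ∧ 1 ≤ h₀ ∧
        ∀ t : ℝ, |t| ≤ T → ∀ (a b c : ℤ) (P : ℤ[X][X]) (h₁ h₂ : ℝ), c ≠ 0 → h₀ ≤ h₁ → 1 ≤ h₂ →
          h₂ ≤ h₁ ^ θ → Entries h₁ a b c → TotalDegree d P → Height h₂ P → NotOnLine a b c P →
          |(a : ℝ) + b * Real.exp 1 + c * t| ≤ h₁ ^ (-w) →
          κ * (h₁ ^ (-((d : ℝ) * (d + 1) + η)) * h₂ ^ (-((d : ℝ) + η))) ≤
            |value (Real.exp 1) t P|) ∧
    -- (3)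
    (∀ (t : ℝ) (d : ℕ) (P : ℤ[X][X]), P ≠ 0 → TotalDegree d P → value (Real.exp 1) t P = 0 →
      Independent (Real.exp 1) t → ∀ η : ℝ, 0 < η → ∃ κ : ℝ, 0 < κ ∧
        Measure t ((d : ℝ) ^ 2 + d - 1 + η) κ) ∧
    -- (4)
    (Independent (Real.exp 1) Real.pi →
      (∀ P : ℤ[X][X], P ≠ 0 → value (Real.exp 1) Real.pi P ≠ 0) ∨
        ∃ w κ : ℝ, 0 < κ ∧ Measure Real.pi w κ) := by
  have h3 : ∀ (t : ℝ) (d : ℕ) (P : ℤ[X][X]), P ≠ 0 → TotalDegree d P →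
      value (Real.exp 1) t P = 0 → Independent (Real.exp 1) t → ∀ η : ℝ, 0 < η →
        ∃ κ : ℝ, 0 < κ ∧ Measure t ((d : ℝ) ^ 2 + d - 1 + η) κ :=
    fun t d P h1 h2 h3 h4 η hη => Pool.Agent.V1139.LP.dicho t d P h1 h2 h3 h4 η hη
  refine ⟨fun d T η hd hT hη => ?_, fun d T w θ η hd hT hη hw => ?_, h3, fun hind => ?_⟩
  · obtain ⟨κ, hκ, h⟩ := Pool.Agent.V1139.LP.line d hd T η hT hη
    exact ⟨κ, hκ, fun t ht a b c P h₁ h₂ hc hh₁ hh₂ he hP hPh hne =>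
      h t ht a b c P h₁ h₂ hc hh₁ hh₂ he.1 he.2.1 he.2.2 hP hPh hne⟩
  · obtain ⟨κ, h₀, hκ, hh₀, h⟩ := Pool.Agent.V1139.LP.window d hd T w θ η hT hη hw
    exact ⟨κ, h₀, hκ, hh₀, fun t ht a b c P h₁ h₂ hc hh₁ hh₂ hθ he hP hPh hne hL =>
      h t ht a b c P h₁ h₂ hc hh₁ hh₂ hθ he.1 he.2.1 he.2.2 hP hPh hne hL⟩
  · by_cases hal : ∀ P : ℤ[X][X], P ≠ 0 → value (Real.exp 1) Real.pi P ≠ 0
    · exact Or.inl hal
    · right
      push Not at hal
      obtain ⟨P, hP0, hPv⟩ := hal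
      obtain ⟨d, hd⟩ := exists_td P
      obtain ⟨κ, hκ, h⟩ := h3 Real.pi d P hP0 hd hPv hind 1 one_pos
      exact ⟨_, κ, hκ, h⟩

end Pool.Agent.Results.MP_58e087_nt.LinearAgainstPolynomial
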