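import Pool.Agent.TH550.NRZ.Elim

/-!
# Near relations between `1, e, …, e ^ m` and arbitrary real numbers, in particular `1, e, π`

The proof combines the measure of linear independence of the powers of `e` with the optimal exponent
(`Pool.Agent.W472.AC.e_meas`) with the elimination of arbitrary numbers
(`Pool.Agent.TH550.NRZ.product_ineq`, `Pool.Agent.TH550.NRZ.sparse_unif`).
-/

set_option autoImplicit false

namespace Pool.Agent.Results.MP_58e087_nt.NearRelations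

open Real

/-- the value `a_0 + a_1 e + … + a_m e ^ m + b_1 t_1 + … + b_r t_r` -/
noncomputable def form {m r : ℕ} (t : Fin r → ℝ) (a : Fin (m + 1) → ℤ) (b : Fin r → ℤ) : ℝ :=
  ∑ i : Fin (m + 1), (a i : ℝ) * Real.exp 1 ^ (i : ℕ) + ∑ j, (b j : ℝ) * t j

/-- The height of the integer vector `(a_0, …, a_m, c)`: the largest absolute value of its
coordinates (`‖ ‖` is the maximum norm). -/
noncomputable def height {m : ℕ} (v : (Fin (m + 1) → ℤ) × ℤ) : ℝ := max ‖v.1‖ ‖v.2‖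

/-- The primitive integer vectors `v = (a_0, …, a_m, c)`, `c > 0`, of height at most `X` with
`|a_0 + a_1 e + … + a_m e ^ m + c t| ≤ (height v) ^ (-w)`. -/
def Near (m : ℕ) (t w X : ℝ) : Set ((Fin (m + 1) → ℤ) × ℤ) :=
  {v | 0 < v.2 ∧ (∀ d : ℤ, (∀ i, d ∣ v.1 i) → d ∣ v.2 → IsUnit d) ∧ height v ≤ X ∧
    |∑ i : Fin (m + 1), (v.1 i : ℝ) * Real.exp 1 ^ (i : ℕ) + v.2 * t| ≤ height v ^ (-w)}

/-- The height `max (|a|, |b|, |c|)` of the integer vector `v = (a, b, c)`. -/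
noncomputable def height3 (v : ℤ × ℤ × ℤ) : ℝ :=
  max |(v.1 : ℝ)| (max |(v.2.1 : ℝ)| |(v.2.2 : ℝ)|)

/-- The primitive integer vectors `v = (a, b, c)`, `c > 0`, of height at most `X` with
`|a + b e + c π| ≤ (height v) ^ (-w)`. -/
def NearPi (w X : ℝ) : Set (ℤ × ℤ × ℤ) :=
  {v | 0 < v.2.2 ∧ Int.gcd v.1 (Int.gcd v.2.1 v.2.2) = 1 ∧ height3 v ≤ X ∧
    |(v.1 : ℝ) + v.2.1 * Real.exp 1 + v.2.2 * π| ≤ height3 v ^ (-w)}

open Pool.Agent.TH647.NR Pool.Agent.W472.AC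

lemma e_meas' (m : ℕ) (η : ℝ) (hη : 0 < η) :
    ∃ c : ℝ, 0 < c ∧ Meas (fun i : Fin (m + 1) => Real.exp 1 ^ (i : ℕ)) (m + η) c := by
  obtain ⟨c, hc, h⟩ := e_meas m (fun i => ((i : ℕ) : ℤ)) (fun i j hij => by
    apply Fin.ext
    simpa using hij) (by simp) (fun i => by positivity) η hη
  refine ⟨c, hc, ?_⟩
  have e : (fun i : Fin (m + 1) => Real.exp 1 ^ (i : ℕ)) =
      fun i : Fin (m + 1) => Real.exp ((((i : ℕ) : ℤ) : ℝ)) := by
    funext i
    rw [← Real.exp_nat_mul]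
    simp
  rw [e]
  exact h

/-- the product inequality -/
lemma product (m r : ℕ) (η : ℝ) (hη : 0 < η) : ∃ c : ℝ, 0 < c ∧ ∀ (t : Fin r → ℝ)
      (a : Fin (r + 1) → Fin (m + 1) → ℤ) (b : Fin (r + 1) → Fin r → ℤ) (h : Fin (r + 1) → ℝ),
      LinearIndependent ℤ (fun i => (a i, b i)) →
      (∀ i, 1 ≤ h i ∧ (∀ j, |(a i j : ℝ)| ≤ h i) ∧ ∀ j, |(b i j : ℝ)| ≤ h i) →
      c * ∏ i, h i ^ (-((m : ℝ) + 1 + η)) ≤ ∑ i, |form t (a i) (b i)| / h i := by
  obtain ⟨c, hc, hm⟩ := e_meas' m η hη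
  obtain ⟨c', hc', h'⟩ := Pool.Agent.TH550.NRZ.product_ineq (m := m)
    (fun i : Fin (m + 1) => Real.exp 1 ^ (i : ℕ)) (m + η) c (by positivity) hc hm r
  refine ⟨c', hc', fun t a b h hli hh => ?_⟩
  have h2 := h' t a b hli h (fun i => (hh i).1) (fun i => (hh i).2.1) (fun i => (hh i).2.2)
  have e1 : -((m : ℝ) + η + 1) = -((m : ℝ) + 1 + η) := by ring
  rw [e1] at h2
  exact h2

lemma sparse (m : ℕ) (w ρ : ℝ) (hw : 2 * (m : ℝ) + 1 < w) (hρ : 1 < ρ)
    (hρw : ρ < (w - m) / (m + 1)) :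
    ∃ C : ℝ, ∀ t X : ℝ, 3 ≤ X →
      (Near m t w X).Finite ∧ ((Near m t w X).ncard : ℝ) ≤ log (log X) / log ρ + C := by
  have hm0 : (0 : ℝ) ≤ m := Nat.cast_nonneg m
  have h1 : 0 < w - m - ρ * (m + 1) := by
    rw [lt_div_iff₀ (by positivity)] at hρw
    linarith
  obtain ⟨η, hη0, hη1, hη2⟩ : ∃ η : ℝ, 0 < η ∧ η * (1 + ρ) < w - m - ρ * (m + 1) ∧
      2 * η < w - 2 * m - 1 := by
    refine ⟨min ((w - m - ρ * (m + 1)) / (2 * (1 + ρ))) ((w - 2 * m - 1) / 4), ?_, ?_, ?_⟩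
    · apply lt_min
      · have : 0 < 1 + ρ := by linarith
        positivity
      · linarith
    · have h2 : 0 < 1 + ρ := by linarith
      calc _ ≤ (w - m - ρ * (m + 1)) / (2 * (1 + ρ)) * (1 + ρ) := by
            gcongr
            exact min_le_left _ _
        _ = (w - m - ρ * (m + 1)) / 2 := by field_simp
        _ < _ := by linarith
    · have := min_le_right ((w - m - ρ * (m + 1)) / (2 * (1 + ρ))) ((w - 2 * m - 1) / 4)
      linarith
  obtain ⟨c, hc, hm⟩ := e_meas' m η hη0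
  obtain ⟨C, hC⟩ := Pool.Agent.TH550.NRZ.sparse_unif (m := m)
    (fun i : Fin (m + 1) => Real.exp 1 ^ (i : ℕ)) (m + η) c (by positivity) hc hm w ρ
    (by linarith) hρ (by
      rw [lt_div_iff₀ (by positivity)]
      linarith)
  refine ⟨C, fun t X hX => ?_⟩
  obtain ⟨h1, h2⟩ := hC t X hX
  have e : Near m t w X = {v ∈ {v : (Fin (m + 1) → ℤ) × ℤ | 0 < v.2 ∧ Prim v ∧
      |lin (fun i : Fin (m + 1) => Real.exp 1 ^ (i : ℕ)) t v| ≤ ‖v‖ ^ (-w)} | ‖v‖ ≤ X} := by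
    ext v
    simp only [Near, Set.mem_setOf_eq, Prim, lin, height, Prod.norm_def]
    tauto
  rw [e]
  exact ⟨h1, h2⟩

/-- passage to the general notation -/
def φ (v : ℤ × ℤ × ℤ) : (Fin 2 → ℤ) × ℤ := (![v.1, v.2.1], v.2.2)

lemma φ_inj : Function.Injective φ := by
  rintro ⟨a, b, c⟩ ⟨a', b', c'⟩ h
  have h1 := congrArg Prod.fst h
  have h2 := congrArg Prod.snd h
  have h3 := congrFun h1 0
  have h4 := congrFun h1 1
  simp only [φ, Matrix.cons_val_zero, Matrix.cons_val_one] at h2 h3 h4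
  rw [h2, h3, h4]

lemma norm_φ (v : ℤ × ℤ × ℤ) : height (φ v) = height3 v := by
  have h1 : ‖(![v.1, v.2.1] : Fin 2 → ℤ)‖ = max |(v.1 : ℝ)| |(v.2.1 : ℝ)| := by
    apply le_antisymm
    · refine (pi_norm_le_iff_of_nonneg (by positivity)).2 fun i => ?_
      fin_cases i
      · exact le_max_left _ _
      · exact le_max_right _ _
    · refine max_le ?_ ?_
      · exact norm_le_pi_norm (![v.1, v.2.1] : Fin 2 → ℤ) 0
      · exact norm_le_pi_norm (![v.1, v.2.1] : Fin 2 → ℤ) 1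
  unfold φ height height3
  simp only
  rw [h1, max_assoc]
  rfl

lemma prim_φ (v : ℤ × ℤ × ℤ) (h : Int.gcd v.1 (Int.gcd v.2.1 v.2.2) = 1) :
    ∀ d : ℤ, (∀ i, d ∣ (φ v).1 i) → d ∣ (φ v).2 → IsUnit d := by
  intro d hd hd2
  have h0 : d ∣ v.1 := hd 0
  have h1 : d ∣ v.2.1 := hd 1
  have h2 : d ∣ ((Int.gcd v.2.1 v.2.2 : ℕ) : ℤ) := Int.dvd_coe_gcd h1 hd2
  have h3 := Int.dvd_coe_gcd h0 h2
  rw [h] at h3
  exact isUnit_of_dvd_one (by simpa using h3)

/-- **Near relations between `1, e, …, e ^ m` and arbitrary real numbers.**  (1) A product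
inequality for linearly independent relations, with the exponent `m + 1 + η` and a constant which does
not depend on the numbers `t_j`.  (2) For one number `t`, `w > 2 m + 1` and `1 < ρ < (w - m) / (m + 1)`
there are at most `log log X / log ρ + C` near relations of quality `w` up to height `X`, with `C`
independent of `t`.  (3) The case of `1, e, π`: at most `log log X / log ρ + C` near relations of
quality `w > 3`, for all `ρ < (w - 1) / 2`. -/
theorem result :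
    (∀ (m r : ℕ) (η : ℝ), 0 < η → ∃ c : ℝ, 0 < c ∧ ∀ (t : Fin r → ℝ)
      (a : Fin (r + 1) → Fin (m + 1) → ℤ) (b : Fin (r + 1) → Fin r → ℤ) (h : Fin (r + 1) → ℝ),
      LinearIndependent ℤ (fun i => (a i, b i)) →
      (∀ i, 1 ≤ h i ∧ (∀ j, |(a i j : ℝ)| ≤ h i) ∧ ∀ j, |(b i j : ℝ)| ≤ h i) →
      c * ∏ i, h i ^ (-((m : ℝ) + 1 + η)) ≤ ∑ i, |form t (a i) (b i)| / h i) ∧
    (∀ (m : ℕ) (w ρ : ℝ), 2 * (m : ℝ) + 1 < w → 1 < ρ → ρ < (w - m) / (m + 1) →
      ∃ C : ℝ, ∀ t X : ℝ, 3 ≤ X →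
        (Near m t w X).Finite ∧ ((Near m t w X).ncard : ℝ) ≤ log (log X) / log ρ + C) ∧
    (∀ w ρ : ℝ, 3 < w → 1 < ρ → ρ < (w - 1) / 2 →
      ∃ C : ℝ, ∀ X : ℝ, 3 ≤ X →
        (NearPi w X).Finite ∧ ((NearPi w X).ncard : ℝ) ≤ log (log X) / log ρ + C) := by
  refine ⟨product, sparse, fun w ρ hw hρ hρw => ?_⟩
  obtain ⟨C, hC⟩ := sparse 1 w ρ (by push_cast; linarith) hρ (by
    push_cast
    rw [show (1 : ℝ) + 1 = 2 by norm_num]
    exact hρw)
  refine ⟨C, fun X hX => ?_⟩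
  obtain ⟨h1, h2⟩ := hC π X hX
  have hsub : Set.MapsTo φ (NearPi w X) (Near 1 π w X) := by
    intro v hv
    refine ⟨hv.1, prim_φ v hv.2.1, ?_, ?_⟩
    · rw [norm_φ]
      exact hv.2.2.1
    · rw [norm_φ]
      have e1 : ∑ i : Fin (1 + 1), ((φ v).1 i : ℝ) * Real.exp 1 ^ (i : ℕ) + (φ v).2 * π =
          (v.1 : ℝ) + v.2.1 * Real.exp 1 + v.2.2 * π := by
        rw [Fin.sum_univ_two]
        simp [φ]
      rw [e1]
      exact hv.2.2.2
  have hfin : (NearPi w X).Finite := Set.Finite.of_finite_image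
    (h1.subset (Set.image_subset_iff.2 hsub)) (φ_inj.injOn)
  refine ⟨hfin, le_trans ?_ h2⟩
  have h3 := Set.ncard_le_ncard_of_injOn (s := NearPi w X) φ hsub (φ_inj.injOn) h1
  exact_mod_cast h3

end Pool.Agent.Results.MP_58e087_nt.NearRelations
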