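import Mathlib
import Pool.Agent.V11015.FS.General

/-!
# Finite-state prediction of the digits of linear forms in `1, e, …, e ^ m` and arbitrary numbers

A machine with finitely many states reads the digits of a number in some base one after the other and
announces before each digit a guess, which depends on its state only.

Let `t_1, …, t_r` be arbitrary real numbers of absolute value at most `T` and let `x_0, …, x_r` be the
values of `r + 1` linear forms in `1, e, …, e ^ m, t_1, …, t_r` with rational coefficients, linearly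
independent modulo constants. Let machines with `S_i` states read the digits of `x_i` in base `b_i` up
to the places `N_i` with `N_i log b_i ≥ Λ`. The total number of wrong guesses is at least
`(log Λ - log (∑ S_i log b_i + log H)) / log ((r + 1) (m + 1 + η)) - C`, with `C` depending only on
`m, r, T, η`; `H` bounds the sizes of the coefficients and denominators (not of the constant terms).

For `m = r = 1`, `t_1 = π` these are the numbers `(s + a e + c π) / d`: at every scale the forms whose
digits are predicted with few errors are parallel modulo constants.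
-/

set_option autoImplicit false

namespace Pool.Agent.Results.MP_58e087_nt.PredictionSeveralNumbers

open Finset Pool.Agent

/-- the `i`-th digit of `x` after the point in base `b` -/
noncomputable def digit (b : ℕ) (x : ℝ) (i : ℕ) : ℤ := ⌊x * (b : ℝ) ^ i⌋ % (b : ℤ)

/-- A machine with the set of states `Q`: the transition function, the guess announced in each
state, and the initial state. -/
structure Machine (Q : Type) where
  next : Q → ℤ → Q
  guess : Q → ℤ
  start : Q

/-- The state of the machine after it has read the first `i` digits of `x` in base `b`. -/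
noncomputable def Machine.state {Q : Type} (M : Machine Q) (b : ℕ) (x : ℝ) : ℕ → Q
  | 0 => M.start
  | i + 1 => M.next (M.state b x i) (digit b x (i + 1))

/-- The number of the wrong guesses for the first `n` digits of `x` in base `b`: the guess for the
digit number `i + 1` is announced when the machine has read the first `i` digits. -/
noncomputable def Machine.errors {Q : Type} (M : Machine Q) (b : ℕ) (x : ℝ) (n : ℕ) : ℕ :=
  ((range n).filter (fun i => M.guess (M.state b x i) ≠ digit b x (i + 1))).card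

theorem state_eq {Q : Type} (M : Machine Q) (b : ℕ) (x : ℝ) (i : ℕ) :
    M.state b x i = V60.FSP.st M.next (V60.FSP.dg b x) M.start 0 i := by
  induction i with
  | zero => rfl
  | succ i ih =>
    rw [V60.FSP.st_step, ← ih, Nat.zero_add]
    rfl

theorem errors_eq {Q : Type} [Fintype Q] (M : Machine Q) (b : ℕ) (x : ℝ) (n : ℕ) :
    M.errors b x n = V60.FSP.err M.next M.guess (V60.FSP.dg b x) M.start 0 n := by
  unfold Machine.errors V60.FSP.err
  congr 1
  apply Finset.filter_congr
  intro i _
  rw [state_eq, Nat.zero_add]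
  rfl

/-- The integers of a form `(a_0 + a_1 e + … + a_m e ^ m + c_1 t_1 + … + c_r t_r) / d`. -/
structure Form (m r : ℕ) where
  a : Fin (m + 1) → ℤ
  c : Fin r → ℤ
  d : ℕ

/-- the value of the form at `t` -/
noncomputable def Form.value {m r : ℕ} (F : Form m r) (t : Fin r → ℝ) : ℝ :=
  ((∑ j : Fin (m + 1), (F.a j : ℝ) * Real.exp 1 ^ (j : ℕ)) + ∑ l, (F.c l : ℝ) * t l) / F.d

/-- the form has a positive denominator and size at most `H`; the integer `a_0` is arbitrary -/
def Form.Size {m r : ℕ} (F : Form m r) (H : ℝ) : Prop :=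
  (∀ j : Fin m, |(F.a j.succ : ℝ)| ≤ H) ∧ (∀ l, |(F.c l : ℝ)| ≤ H) ∧ 1 ≤ F.d ∧ (F.d : ℝ) ≤ H

/-- the forms are linearly independent modulo constants -/
def Independent {m r k : ℕ} (F : Fin k → Form m r) : Prop :=
  LinearIndependent ℤ (fun i => ((fun j : Fin m => (F i).a j.succ), (F i).c))

/-- In some base `b` some machine with `S` states, `S log b ≤ σ`, makes less than `E` errors on the
first `N` digits of `x` for some `N` with `N log b ≥ Λ`. -/
def Predicted (x Λ σ E : ℝ) : Prop :=
  ∃ (b : ℕ) (Q : Type) (_ : Fintype Q) (M : Machine Q) (N : ℕ), 2 ≤ b ∧ Λ ≤ N * Real.log b ∧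
    Fintype.card Q * Real.log b ≤ σ ∧ (M.errors b x N : ℝ) < E

/-- the value of the form `(s + a e + c π) / d` -/
noncomputable def formPi (s a c : ℤ) (d : ℕ) : ℝ := (s + a * Real.exp 1 + c * Real.pi) / d

open Pool.Agent.W472.AC in
lemma e_meas' (m : ℕ) (η : ℝ) (hη : 0 < η) :
    ∃ c : ℝ, 0 < c ∧ Meas (fun i : Fin (m + 1) => Real.exp 1 ^ (i : ℕ)) (m + η) c := by
  obtain ⟨c, hc, h⟩ := e_meas m (fun i => ((i : ℕ) : ℤ)) (fun i j hij => by
    apply Fin.ext
    simpa using hij) (by simp) (fun i => by positivity) η hη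
  refine ⟨c, hc, ?_⟩
  have e : (fun i : Fin (m + 1) => Real.exp 1 ^ (i : ℕ)) =
      fun i : Fin (m + 1) => Real.exp ((((i : ℕ) : ℤ) : ℝ)) := by
    funext i
    rw [← Real.exp_nat_mul]
    simp
  rw [e]
  exact h

/-- the bound for the errors -/
theorem bound (m r : ℕ) (T η : ℝ) (hT : 0 ≤ T) (hη : 0 < η) : ∃ C : ℝ, ∀ t : Fin r → ℝ,
    (∀ l, |t l| ≤ T) → ∀ H : ℝ, 1 ≤ H → ∀ F : Fin (r + 1) → Form m r, Independent F →
    (∀ i, (F i).Size H) → ∀ b : Fin (r + 1) → ℕ, (∀ i, 2 ≤ b i) →
    ∀ (Q : Fin (r + 1) → Type) [∀ i, Fintype (Q i)] (M : ∀ i, Machine (Q i)) (N : Fin (r + 1) → ℕ)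
    (Λ : ℝ), 0 < Λ → (∀ i, Λ ≤ N i * Real.log (b i)) →
    (Real.log Λ - Real.log ((∑ i, (Fintype.card (Q i) : ℝ) * Real.log (b i)) + Real.log H)) /
      Real.log (((r : ℝ) + 1) * (m + 1 + η)) - C ≤
      ((∑ i, (M i).errors (b i) ((F i).value t) (N i) : ℕ) : ℝ) := by
  obtain ⟨c, hc, hm⟩ := e_meas' m η hη
  obtain ⟨C, h⟩ := V11015.FS.general_bound (m := m) (fun i : Fin (m + 1) => Real.exp 1 ^ (i : ℕ))
    (by simp) (m + η) c (by positivity) hc hm r T hT
  refine ⟨C, fun t ht H hH F hF hsz b hb Q _ M N Λ hΛ hN => ?_⟩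
  have h1 := h t ht H hH (fun i => (F i).a) (fun i => (F i).c) (fun i => (F i).d) hF
    ⟨fun i j => (hsz i).1 j, fun i l => (hsz i).2.1 l, fun i => (hsz i).2.2⟩ b hb Q
    (fun i => (M i).next) (fun i => (M i).guess) (fun i => (M i).start) N Λ hΛ hN
  have e1 : (m : ℝ) + η + 1 = m + 1 + η := by ring
  rw [e1] at h1
  have e2 : ∀ i, (M i).errors (b i) ((F i).value t) (N i) = V60.FSP.err (M i).next (M i).guess
      (V60.FSP.dg (b i) (V11015.FS.fval (fun i : Fin (m + 1) => Real.exp 1 ^ (i : ℕ)) t
        (F i).a (F i).c (F i).d)) (M i).start 0 (N i) := fun i => errors_eq _ _ _ _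
  rw [Finset.sum_congr rfl (fun i _ => e2 i)]
  exact h1

/-- **Finite-state prediction of the digits of forms in `1, e, …, e ^ m` and arbitrary numbers.**
(1) Let `T ≥ 0`, `η > 0`. There is `C` such that the following holds for all real `t_1, …, t_r` with
`|t_l| ≤ T`, all `H ≥ 1` and all `r + 1` forms of size at most `H`, linearly independent modulo
constants. If machines with `S_i` states read the digits of the values of the forms, each one in its own
base `b_i`, up to the places `N_i` with `N_i log b_i ≥ Λ > 0`, then the total number of wrong guesses is at least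
`(log Λ - log (∑ S_i log b_i + log H)) / log ((r + 1) (m + 1 + η)) - C`.
(2) For all `Λ, σ > 0` the forms of size at most `H` whose values are predicted (in some base `b`, up to
some place `N` with `N log b ≥ Λ`, by a machine with `S` states, `S log b ≤ σ`) with less than
`((log Λ - log ((r + 1) σ + log H)) / log ((r + 1) (m + 1 + η)) - C) / (r + 1)` errors span a space
of dimension at most `r` modulo constants: no `r + 1` of them are linearly independent.
(3) For `1, e, π`: if `(s + a e + c π) / d` and `(s' + a' e + c' π) / d'` are forms of size at most `H`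
(`s, s'` arbitrary) with `a c' ≠ a' c`, then not both are predicted with less than
`((log Λ - log (2 σ + log H)) / log (4 + η) - C) / 2` errors. -/
theorem result :
    (∀ (m r : ℕ) (T η : ℝ), 0 ≤ T → 0 < η → ∃ C : ℝ, ∀ t : Fin r → ℝ, (∀ l, |t l| ≤ T) →
      ∀ H : ℝ, 1 ≤ H →
      (∀ F : Fin (r + 1) → Form m r, Independent F → (∀ i, (F i).Size H) →
        ∀ b : Fin (r + 1) → ℕ, (∀ i, 2 ≤ b i) → ∀ (Q : Fin (r + 1) → Type) [∀ i, Fintype (Q i)]
        (M : ∀ i, Machine (Q i)) (N : Fin (r + 1) → ℕ) (Λ : ℝ), 0 < Λ →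
        (∀ i, Λ ≤ N i * Real.log (b i)) →
        (Real.log Λ - Real.log ((∑ i, (Fintype.card (Q i) : ℝ) * Real.log (b i)) + Real.log H)) /
          Real.log (((r : ℝ) + 1) * (m + 1 + η)) - C ≤
          ((∑ i, (M i).errors (b i) ((F i).value t) (N i) : ℕ) : ℝ)) ∧
      (∀ Λ σ : ℝ, 0 < Λ → 0 < σ → ∀ F : Fin (r + 1) → Form m r, (∀ i, (F i).Size H) →
        (∀ i, Predicted ((F i).value t) Λ σ
          (((Real.log Λ - Real.log (((r : ℝ) + 1) * σ + Real.log H)) /
            Real.log (((r : ℝ) + 1) * (m + 1 + η)) - C) / ((r : ℝ) + 1))) →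
        ¬ Independent F)) ∧
    (∀ η : ℝ, 0 < η → ∃ C : ℝ, ∀ H : ℝ, 1 ≤ H → ∀ (s a c s' a' c' : ℤ) (d d' : ℕ),
      |(a : ℝ)| ≤ H → |(c : ℝ)| ≤ H → |(a' : ℝ)| ≤ H → |(c' : ℝ)| ≤ H → 1 ≤ d → (d : ℝ) ≤ H →
      1 ≤ d' → (d' : ℝ) ≤ H → a * c' ≠ a' * c → ∀ Λ σ : ℝ, 0 < Λ → 0 < σ →
      ¬ (Predicted (formPi s a c d) Λ σ
          (((Real.log Λ - Real.log (2 * σ + Real.log H)) / Real.log (4 + η) - C) / 2) ∧
        Predicted (formPi s' a' c' d') Λ σ
          (((Real.log Λ - Real.log (2 * σ + Real.log H)) / Real.log (4 + η) - C) / 2))) := by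
  have part1 : ∀ (m r : ℕ) (T η : ℝ), 0 ≤ T → 0 < η → ∃ C : ℝ, ∀ t : Fin r → ℝ, (∀ l, |t l| ≤ T) →
      ∀ H : ℝ, 1 ≤ H →
      (∀ F : Fin (r + 1) → Form m r, Independent F → (∀ i, (F i).Size H) →
        ∀ b : Fin (r + 1) → ℕ, (∀ i, 2 ≤ b i) → ∀ (Q : Fin (r + 1) → Type) [∀ i, Fintype (Q i)]
        (M : ∀ i, Machine (Q i)) (N : Fin (r + 1) → ℕ) (Λ : ℝ), 0 < Λ →
        (∀ i, Λ ≤ N i * Real.log (b i)) →
        (Real.log Λ - Real.log ((∑ i, (Fintype.card (Q i) : ℝ) * Real.log (b i)) + Real.log H)) /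
          Real.log (((r : ℝ) + 1) * (m + 1 + η)) - C ≤
          ((∑ i, (M i).errors (b i) ((F i).value t) (N i) : ℕ) : ℝ)) ∧
      (∀ Λ σ : ℝ, 0 < Λ → 0 < σ → ∀ F : Fin (r + 1) → Form m r, (∀ i, (F i).Size H) →
        (∀ i, Predicted ((F i).value t) Λ σ
          (((Real.log Λ - Real.log (((r : ℝ) + 1) * σ + Real.log H)) /
            Real.log (((r : ℝ) + 1) * (m + 1 + η)) - C) / ((r : ℝ) + 1))) →
        ¬ Independent F) := by
    intro m r T η hT hη
    obtain ⟨C, hC⟩ := bound m r T η hT hη
    refine ⟨C, fun t ht H hH => ⟨hC t ht H hH, ?_⟩⟩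
    intro Λ σ hΛ hσ F hsz hpred hind
    choose b Q inst M N hb hN hS hE using hpred
    have h1 := hC t ht H hH F hind hsz b hb Q M N Λ hΛ hN
    have hr0 : (0 : ℝ) < (r : ℝ) + 1 := by positivity
    have hlH : 0 ≤ Real.log H := Real.log_nonneg hH
    have hm0 : (0 : ℝ) ≤ m := Nat.cast_nonneg m
    have hr1 : (0 : ℝ) ≤ r := Nat.cast_nonneg r
    have hl : 0 < Real.log (((r : ℝ) + 1) * (m + 1 + η)) := Real.log_pos (by nlinarith)
    have h2 : ∑ i, (Fintype.card (Q i) : ℝ) * Real.log (b i) ≤ ((r : ℝ) + 1) * σ := by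
      calc ∑ i, (Fintype.card (Q i) : ℝ) * Real.log (b i) ≤ ∑ _i : Fin (r + 1), σ :=
            Finset.sum_le_sum fun i _ => hS i
        _ = _ := by
            rw [Finset.sum_const, Finset.card_univ, Fintype.card_fin, nsmul_eq_mul]
            push_cast
            ring
    have h0 : 0 < ∑ i, (Fintype.card (Q i) : ℝ) * Real.log (b i) := by
      apply Finset.sum_pos
      · intro i _
        have : Nonempty (Q i) := ⟨(M i).start⟩
        have hp : (0 : ℝ) < Fintype.card (Q i) := by exact_mod_cast Fintype.card_pos (α := Q i)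
        exact mul_pos hp (V11015.FS.log_base_pos (hb i))
      · exact Finset.univ_nonempty
    have h3 : Real.log ((∑ i, (Fintype.card (Q i) : ℝ) * Real.log (b i)) + Real.log H) ≤
        Real.log (((r : ℝ) + 1) * σ + Real.log H) := Real.log_le_log (by linarith) (by linarith)
    have h4 : (Real.log Λ - Real.log (((r : ℝ) + 1) * σ + Real.log H)) /
        Real.log (((r : ℝ) + 1) * (m + 1 + η)) ≤
        (Real.log Λ - Real.log ((∑ i, (Fintype.card (Q i) : ℝ) * Real.log (b i)) + Real.log H)) /
        Real.log (((r : ℝ) + 1) * (m + 1 + η)) := div_le_div_of_nonneg_right (by linarith) hl.le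
    set E : ℝ := ((Real.log Λ - Real.log (((r : ℝ) + 1) * σ + Real.log H)) /
      Real.log (((r : ℝ) + 1) * (m + 1 + η)) - C) / ((r : ℝ) + 1) with hEdef
    have h5 : ((∑ i, (M i).errors (b i) ((F i).value t) (N i) : ℕ) : ℝ) < ((r : ℝ) + 1) * E := by
      push_cast
      calc ∑ i, ((M i).errors (b i) ((F i).value t) (N i) : ℝ) < ∑ _i : Fin (r + 1), E :=
            Finset.sum_lt_sum_of_nonempty Finset.univ_nonempty fun i _ => hE i
        _ = _ := by
            rw [Finset.sum_const, Finset.card_univ, Fintype.card_fin, nsmul_eq_mul]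
            push_cast
            ring
    have h6 : ((r : ℝ) + 1) * E = (Real.log Λ - Real.log (((r : ℝ) + 1) * σ + Real.log H)) /
      Real.log (((r : ℝ) + 1) * (m + 1 + η)) - C := by
      rw [hEdef]
      field_simp
    linarith
  refine ⟨part1, fun η hη => ?_⟩
  obtain ⟨C, hC⟩ := part1 1 1 Real.pi (η / 2) Real.pi_pos.le (by positivity)
  refine ⟨C, fun H hH s a c s' a' c' d d' ha hc ha' hc' hd hdH hd' hdH' hne Λ σ hΛ hσ hboth => ?_⟩
  have h := (hC (fun _ => Real.pi) (fun _ => by rw [abs_of_pos Real.pi_pos]) H hH).2 Λ σ hΛ hσ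
    ![⟨![s, a], fun _ => c, d⟩, ⟨![s', a'], fun _ => c', d'⟩] (by
      intro i
      fin_cases i
      · refine ⟨fun j => ?_, fun _ => hc, hd, hdH⟩
        fin_cases j
        exact ha
      · refine ⟨fun j => ?_, fun _ => hc', hd', hdH'⟩
        fin_cases j
        exact ha') ?_
  · apply h
    unfold Independent
    rw [Fintype.linearIndependent_iff]
    intro g hg
    rw [Prod.ext_iff] at hg
    have h1 := congrFun hg.1 0
    have h2 := congrFun hg.2 0
    simp [Fin.sum_univ_two] at h1 h2
    have h3 : g 0 * (a * c' - a' * c) = 0 := by linear_combination c' * h1 - a' * h2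
    have h4 : g 1 * (a * c' - a' * c) = 0 := by linear_combination a * h2 - c * h1
    have h5 : a * c' - a' * c ≠ 0 := sub_ne_zero.2 hne
    intro i
    fin_cases i
    · exact (mul_eq_zero.1 h3).resolve_right h5
    · exact (mul_eq_zero.1 h4).resolve_right h5
  · have e1 : (((1 : ℕ) : ℝ) + 1) * (((1 : ℕ) : ℝ) + 1 + η / 2) = 4 + η := by push_cast; ring
    have e2 : (((1 : ℕ) : ℝ) + 1) = 2 := by norm_num
    rw [e1, e2]
    intro i
    fin_cases i
    · have hv : Form.value (⟨![s, a], fun _ => c, d⟩ : Form 1 1) (fun _ => Real.pi) = formPi s a c d := by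
        unfold Form.value formPi
        simp [Fin.sum_univ_two]
      have := hboth.1
      rw [← hv] at this
      exact this
    · have hv : Form.value (⟨![s', a'], fun _ => c', d'⟩ : Form 1 1) (fun _ => Real.pi) =
          formPi s' a' c' d' := by
        unfold Form.value formPi
        simp [Fin.sum_univ_two]
      have := hboth.2
      rw [← hv] at this
      exact this

end Pool.Agent.Results.MP_58e087_nt.PredictionSeveralNumbers
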